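import Mathlib

open Finset

namespace Pool.Agent.Results.MP_e0d88d_al.TwoGenPI

universe u v

/-- A (not necessarily unital) associative algebra `A` is PI: some nonzero noncommutative
polynomial `f` without constant term (an element of the semigroup algebra of the free semigroup
on `n` letters, which is the free associative algebra without unit) vanishes under every
substitution of elements of `A`. -/
def IsPI (F : Type u) (A : Type v) [Field F] [NonUnitalRing A] [Module F A]
    [IsScalarTower F A A] [SMulCommClass F A A] : Prop :=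
  ∃ (n : ℕ) (f : MonoidAlgebra F (FreeSemigroup (Fin n))), f ≠ 0 ∧
    ∀ a : Fin n → A, MonoidAlgebra.liftMagma F (FreeSemigroup.lift a) f = 0

/-- `A` is generated, as an algebra without unit, by finitely many elements. -/
def FinGen (F : Type u) (A : Type v) [Field F] [NonUnitalRing A] [Module F A]
    [IsScalarTower F A A] [SMulCommClass F A A] : Prop :=
  ∃ s : Finset A, NonUnitalAlgebra.adjoin F (s : Set A) = ⊤

/-- `A` is generated, as an algebra without unit, by two of its elements. -/
def TwoGen (F : Type u) (A : Type v) [Field F] [NonUnitalRing A] [Module F A]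
    [IsScalarTower F A A] [SMulCommClass F A A] : Prop :=
  ∃ x y : A, NonUnitalAlgebra.adjoin F {x, y} = ⊤

/-! Words, straightening, and the count of good permutations. -/


theorem append_lt_append_left' {α : Type*} [LinearOrder α] (u : List α) {a b : List α} (h : a < b) :
    u ++ a < u ++ b := by
  induction u with
  | nil => simpa using h
  | cons x u ih =>
    simp only [List.cons_append]
    rw [List.cons_lt_cons_iff]
    exact Or.inr ⟨rfl, ih⟩

/-- `a` starts with a larger letter than `b`. -/
def HeadGT {α : Type*} [LinearOrder α] (a b : List α) : Prop :=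
  ∃ x s y t, a = x :: s ∧ b = y :: t ∧ y < x

theorem flatten_lt {α : Type*} [LinearOrder α] : ∀ (vs ws : List (List α)), ws.Perm vs → ws ≠ vs →
    vs.Pairwise HeadGT → ws.flatten < vs.flatten := by
  intro vs
  induction vs with
  | nil =>
    intro ws h hne _
    exact absurd (List.Perm.eq_nil h) hne
  | cons v vs ih =>
    intro ws h hne hp
    cases ws with
    | nil => exact absurd h.symm (by simp)
    | cons w ws =>
      rw [List.pairwise_cons] at hp
      by_cases hw : w = v
      · subst hw
        have h1 : ws.Perm vs := (List.perm_cons w).1 h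
        have h2 : ws ≠ vs := fun e => hne (by rw [e])
        have := ih ws h1 h2 hp.2
        simp only [List.flatten_cons]
        exact append_lt_append_left' w this
      · have h1 : w ∈ v :: vs := h.subset (List.mem_cons_self)
        have h2 : w ∈ vs := by
          rcases List.mem_cons.1 h1 with h | h
          · exact absurd h hw
          · exact h
        obtain ⟨x, s, y, t, e1, e2, hlt⟩ := hp.1 w h2
        subst e1 e2
        simp only [List.flatten_cons, List.cons_append]
        rw [List.cons_lt_cons_iff]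
        exact Or.inl hlt

theorem decomp {α : Type*} [LinearOrder α] : ∀ (s l : List α), s.Sublist l → s.Pairwise (· > ·) →
    ∃ (u : List α) (vs : List (List α)), l = u ++ vs.flatten ∧ vs.length = s.length ∧
      (∀ v ∈ vs, ∃ x ∈ s, ∃ t, v = x :: t) ∧ vs.Pairwise HeadGT := by
  intro s
  induction s with
  | nil =>
    intro l _ _
    exact ⟨l, [], by simp, rfl, by simp, List.Pairwise.nil⟩
  | cons x s ih =>
    intro l h hp
    rw [List.pairwise_cons] at hp
    rw [List.cons_sublist_iff] at h
    obtain ⟨r1, r2, rfl, hx, hs⟩ := h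
    obtain ⟨p, q, rfl⟩ := List.append_of_mem hx
    obtain ⟨u, vs, e, hlen, hmem, hpw⟩ := ih (q ++ r2) (hs.trans (List.sublist_append_right q r2)) hp.2
    refine ⟨p, (x :: u) :: vs, ?_, ?_, ?_, ?_⟩
    · simp only [List.flatten_cons, List.append_assoc, List.cons_append]
      rw [e]
    · simp [hlen]
    · intro v hv
      rcases List.mem_cons.1 hv with rfl | hv
      · exact ⟨x, List.mem_cons_self, u, rfl⟩
      · obtain ⟨y, hy, t, ht⟩ := hmem v hv
        exact ⟨y, List.mem_cons_of_mem _ hy, t, ht⟩
    · rw [List.pairwise_cons]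
      refine ⟨?_, hpw⟩
      intro v hv
      obtain ⟨y, hy, t, ht⟩ := hmem v hv
      exact ⟨x, u, y, t, rfl, ht, hp.1 y hy⟩

theorem HeadGT.ne {α : Type*} [LinearOrder α] {a b : List α} (h : HeadGT a b) : a ≠ b := by
  obtain ⟨x, s, y, t, rfl, rfl, hlt⟩ := h
  intro e
  rw [List.cons_eq_cons] at e
  exact hlt.ne e.1.symm

/-- `l` has a strictly decreasing subsequence of length `D`. -/
def Bad {α : Type*} [LinearOrder α] (D : ℕ) (l : List α) : Prop :=
  ∃ s : List α, s.Sublist l ∧ s.length = D ∧ s.Pairwise (· > ·)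

/-- the multilinear identity with coefficients `c` -/
def MultId (F R : Type*) [Field F] [Ring R] [Algebra F R] (D : ℕ) (c : Equiv.Perm (Fin D) → F) :
    Prop :=
  ∀ b : Fin D → R, ∑ σ : Equiv.Perm (Fin D), c σ • (List.ofFn (b ∘ σ)).prod = 0

/-- the monomial function of a word -/
def mon (R : Type*) [Ring R] {α : Type*} (l : List α) : (α → R) → R := fun b => (l.map b).prod

theorem straighten {F R : Type*} [Field F] [Ring R] [Algebra F R] {D : ℕ}
    {c : Equiv.Perm (Fin D) → F} (hc : c 1 = 1) (h : MultId F R D c) {α : Type*} [LinearOrder α]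
    (l0 : List α) (l : List α) (hl : l.Perm l0) :
    mon R l ∈ Submodule.span F (mon R '' {l' : List α | l'.Perm l0 ∧ ¬ Bad D l'}) := by
  classical
  have hfin : Finite {l : List α // l.Perm l0} := by
    have : {l : List α | l.Perm l0} = (l0.permutations.toFinset : Set (List α)) := by
      ext l; simp
    have h2 : Set.Finite {l : List α | l.Perm l0} := by
      rw [this]; exact Finset.finite_toSet _
    exact h2.to_subtype
  suffices H : ∀ x : {l : List α // l.Perm l0}, mon R x.1 ∈
      Submodule.span F (mon R '' {l' : List α | l'.Perm l0 ∧ ¬ Bad D l'}) from H ⟨l, hl⟩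
  intro x
  induction x using WellFoundedLT.induction with
  | ind x ih =>
    by_cases hb : Bad D x.1
    · obtain ⟨s, hs, hsl, hsp⟩ := hb
      obtain ⟨u, vs, e, hlen, -, hpw⟩ := decomp s x.1 hs hsp
      have hvD : vs.length = D := hlen.trans hsl
      subst hvD
      let v : Fin vs.length → List α := vs.get
      have hv : List.ofFn v = vs := List.ofFn_get vs
      have hvinj : Function.Injective v := by
        have : vs.Nodup := hpw.imp (fun h => h.ne)
        exact List.nodup_iff_injective_get.1 this
      -- the words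
      let W : Equiv.Perm (Fin vs.length) → List α := fun σ => u ++ (List.ofFn (v ∘ σ)).flatten
      have hW1 : W 1 = x.1 := by
        simp only [W, Equiv.Perm.coe_one, Function.comp_id]
        rw [hv, e]
      have hWperm : ∀ σ, (W σ).Perm l0 := by
        intro σ
        have h1 : (List.ofFn (v ∘ σ)).Perm (List.ofFn v) := Equiv.Perm.ofFn_comp_perm σ v
        have h2 : (W σ).Perm (W 1) := by
          simp only [W, Equiv.Perm.coe_one, Function.comp_id]
          exact List.Perm.append_left u h1.flatten
        exact h2.trans (hW1 ▸ x.2)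
      have hWlt : ∀ σ, σ ≠ 1 → W σ < x.1 := by
        intro σ hσ
        rw [← hW1]
        simp only [W, Equiv.Perm.coe_one, Function.comp_id]
        apply append_lt_append_left'
        apply flatten_lt
        · exact Equiv.Perm.ofFn_comp_perm σ v
        · intro h1
          have h2 := List.ofFn_injective h1
          apply hσ
          ext i
          have h3 := congrFun h2 i
          simp only [Function.comp_apply] at h3
          rw [hvinj h3]
          simp
        · rw [hv]; exact hpw
      have hmonW : ∀ σ, ∀ b : α → R, mon R (W σ) b =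
          (u.map b).prod * (List.ofFn ((fun i => ((v i).map b).prod) ∘ σ)).prod := by
        intro σ b
        simp only [mon, W, List.map_append, List.prod_append, List.map_flatten, List.prod_flatten,
          List.map_ofFn]
        rfl
      have key : mon R x.1 = - ∑ σ ∈ Finset.univ.erase (1 : Equiv.Perm (Fin vs.length)),
          c σ • mon R (W σ) := by
        rw [eq_neg_iff_add_eq_zero]
        have h1 : mon R x.1 = c 1 • mon R (W 1) := by rw [hc, one_smul, hW1]
        rw [h1, Finset.add_sum_erase Finset.univ (fun σ => c σ • mon R (W σ)) (Finset.mem_univ _)]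
        funext b
        rw [Finset.sum_apply]
        simp only [Pi.smul_apply, Pi.zero_apply]
        have h2 := h (fun i => ((v i).map b).prod)
        have h3 : ∑ σ : Equiv.Perm (Fin vs.length), c σ • mon R (W σ) b =
            (u.map b).prod * ∑ σ : Equiv.Perm (Fin vs.length),
              c σ • (List.ofFn ((fun i => ((v i).map b).prod) ∘ σ)).prod := by
          rw [Finset.mul_sum]
          apply Finset.sum_congr rfl
          intro σ _
          rw [hmonW σ b, mul_smul_comm]
        rw [h3, h2, mul_zero]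
      rw [key]
      apply Submodule.neg_mem
      apply Submodule.sum_mem
      intro σ hσ
      apply Submodule.smul_mem
      exact ih ⟨W σ, hWperm σ⟩ (hWlt σ (Finset.ne_of_mem_erase hσ))
    · exact Submodule.subset_span ⟨x.1, ⟨x.2, hb⟩, rfl⟩


/-- no strictly decreasing subsequence of length `D` -/
def GoodPerm (D : ℕ) {N : ℕ} (σ : Equiv.Perm (Fin N)) : Prop :=
  ¬ ∃ S : Finset (Fin N), S.card = D ∧ StrictAntiOn σ (S : Set (Fin N))

open Classical in
/-- length of the longest decreasing chain before `i` -/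
noncomputable def lab {N : ℕ} (σ : Equiv.Perm (Fin N)) (i : Fin N) : ℕ :=
  (univ.filter (fun S : Finset (Fin N) =>
    StrictAntiOn σ (S : Set (Fin N)) ∧ ∀ j ∈ S, j < i ∧ σ i < σ j)).sup card

theorem exists_lab {N : ℕ} (σ : Equiv.Perm (Fin N)) (i : Fin N) :
    ∃ S : Finset (Fin N), StrictAntiOn σ (S : Set (Fin N)) ∧ (∀ j ∈ S, j < i ∧ σ i < σ j) ∧
      lab σ i = S.card := by
  classical
  have hne : (univ.filter (fun S : Finset (Fin N) =>
    StrictAntiOn σ (S : Set (Fin N)) ∧ ∀ j ∈ S, j < i ∧ σ i < σ j)).Nonempty :=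
    ⟨∅, by simp [StrictAntiOn]⟩
  obtain ⟨S, hS, e⟩ := Finset.exists_mem_eq_sup _ hne card
  rw [Finset.mem_filter] at hS
  refine ⟨S, hS.2.1, hS.2.2, ?_⟩
  rw [← e, lab]

theorem le_lab {N : ℕ} (σ : Equiv.Perm (Fin N)) (i : Fin N) (S : Finset (Fin N))
    (h1 : StrictAntiOn σ (S : Set (Fin N))) (h2 : ∀ j ∈ S, j < i ∧ σ i < σ j) :
    S.card ≤ lab σ i := by
  classical
  rw [lab]
  apply Finset.le_sup (f := card)
  rw [Finset.mem_filter]
  exact ⟨mem_univ _, h1, h2⟩

theorem lab_lt {N : ℕ} (σ : Equiv.Perm (Fin N)) {i j : Fin N} (hij : j < i) (h : σ i < σ j) :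
    lab σ j < lab σ i := by
  classical
  obtain ⟨S, hS1, hS2, e⟩ := exists_lab σ j
  have hj : j ∉ S := fun h => lt_irrefl _ (hS2 j h).1
  have h1 : (insert j S).card ≤ lab σ i := by
    apply le_lab
    · intro a ha b hb hab
      simp only [Finset.coe_insert, Set.mem_insert_iff, Finset.mem_coe] at ha hb
      rcases ha with rfl | ha <;> rcases hb with rfl | hb
      · exact absurd hab (lt_irrefl _)
      · exact absurd (hS2 b hb).1 (not_lt.2 hab.le)
      · exact (hS2 a ha).2
      · exact hS1 ha hb hab
    · intro k hk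
      rcases Finset.mem_insert.1 hk with rfl | hk
      · exact ⟨hij, h⟩
      · exact ⟨(hS2 k hk).1.trans hij, h.trans (hS2 k hk).2⟩
  rw [Finset.card_insert_of_notMem hj] at h1
  omega

theorem lab_lt_of_good {D N : ℕ} {σ : Equiv.Perm (Fin N)} (h : GoodPerm D σ) (i : Fin N) :
    lab σ i < D := by
  by_contra hlt
  push Not at hlt
  obtain ⟨S, hS1, -, e⟩ := exists_lab σ i
  rw [e] at hlt
  obtain ⟨T, hT, hc⟩ := Finset.exists_subset_card_eq hlt
  exact h ⟨T, hc, hS1.mono (by exact_mod_cast hT)⟩

theorem perm_eq_one {N : ℕ} {ρ : Equiv.Perm (Fin N)} {f : Fin N → ℕ} (h1 : ∀ i, f (ρ i) = f i)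
    (h2 : ∀ i j, i < j → f i = f j → ρ i < ρ j) : ∀ i, ρ i = i := by
  intro i
  induction i using WellFoundedLT.induction with
  | ind i ih =>
    rcases lt_trichotomy (ρ i) i with h | h | h
    · exact ρ.injective (ih _ h)
    · exact h
    · exfalso
      rcases lt_trichotomy (ρ.symm i) i with h' | h' | h'
      · have h3 := ih _ h'
        rw [Equiv.apply_symm_apply] at h3
        rw [← h3] at h'
        exact lt_irrefl _ h'
      · have h3 : ρ (ρ.symm i) = ρ i := by rw [h']
        rw [Equiv.apply_symm_apply] at h3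
        rw [← h3] at h
        exact lt_irrefl _ h
      · have h3 : f i = f (ρ.symm i) := by
          have := h1 (ρ.symm i)
          rw [Equiv.apply_symm_apply] at this
          exact this
        have h4 := h2 i (ρ.symm i) h' h3
        rw [Equiv.apply_symm_apply] at h4
        exact lt_asymm h h4

theorem lab_mono {N : ℕ} (σ : Equiv.Perm (Fin N)) {i j : Fin N} (hij : i < j)
    (h : lab σ i = lab σ j) : σ i < σ j := by
  rcases lt_trichotomy (σ i) (σ j) with h' | h' | h'
  · exact h'
  · exact absurd (σ.injective h') hij.ne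
  · exact absurd h (lab_lt σ hij h').ne

open Classical in
theorem card_good (D N : ℕ) :
    (univ.filter (fun σ : Equiv.Perm (Fin N) => GoodPerm D σ)).card ≤ D ^ N * D ^ N := by
  rw [← Fintype.card_subtype]
  let g : {σ : Equiv.Perm (Fin N) // GoodPerm D σ} → (Fin N → Fin D) × (Fin N → Fin D) :=
    fun σ => (fun i => ⟨lab σ.1 i, lab_lt_of_good σ.2 i⟩,
      fun v => ⟨lab σ.1 (σ.1.symm v), lab_lt_of_good σ.2 _⟩)
  have hg : Function.Injective g := by
    rintro ⟨σ, hσ⟩ ⟨τ, hτ⟩ he
    simp only [g, Prod.mk.injEq] at he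
    have e1 : ∀ i, lab σ i = lab τ i := fun i => by
      have := congrFun he.1 i
      simpa using this
    have e2 : ∀ v, lab σ (σ.symm v) = lab τ (τ.symm v) := fun i => by
      have := congrFun he.2 i
      simpa using this
    apply Subtype.ext
    simp only
    have h1 : ∀ i, lab τ ((τ.trans σ.symm) i) = lab τ i := by
      intro i
      have := e2 (τ i)
      rw [Equiv.symm_apply_apply] at this
      rw [Equiv.trans_apply, ← e1, this]
    have h2 : ∀ i j, i < j → lab τ i = lab τ j → (τ.trans σ.symm) i < (τ.trans σ.symm) j := by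
      intro i j hij hl
      have h3 : τ i < τ j := lab_mono τ hij hl
      rcases lt_trichotomy ((τ.trans σ.symm) i) ((τ.trans σ.symm) j) with h' | h' | h'
      · exact h'
      · exact absurd ((τ.trans σ.symm).injective h') hij.ne
      · exfalso
        have h4 : lab σ ((τ.trans σ.symm) j) = lab σ ((τ.trans σ.symm) i) := by
          rw [e1, e1, h1, h1, hl]
        have h5 := lab_mono σ h' h4
        simp only [Equiv.trans_apply, Equiv.apply_symm_apply] at h5
        exact lt_asymm h3 h5
    have h6 := perm_eq_one h1 h2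
    ext i
    have h7 := h6 i
    rw [Equiv.trans_apply, Equiv.symm_apply_eq] at h7
    rw [← h7]
  have := Fintype.card_le_of_injective g hg
  simpa using this

theorem bad_of_not_good {D N : ℕ} {σ : Equiv.Perm (Fin N)} (h : ¬ GoodPerm D σ) :
    Bad D (List.ofFn σ) := by
  unfold GoodPerm at h
  push Not at h
  obtain ⟨S, hS, hanti⟩ := h
  refine ⟨(S.sort (· ≤ ·)).map σ, ?_, ?_, ?_⟩
  · rw [List.ofFn_eq_map]
    apply List.Sublist.map
    apply List.sublist_of_subperm_of_sortedLE
    · apply List.subperm_of_subset (S.sort_nodup _)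
      intro x _
      exact List.mem_finRange x
    · exact S.sortedLT_sort.sortedLE
    · exact (List.sortedLT_finRange N).sortedLE
  · simp [hS]
  · rw [List.pairwise_map]
    have h1 := (S.sortedLT_sort).pairwise
    refine List.Pairwise.imp_of_mem ?_ h1
    intro a b ha hb hab
    rw [Finset.mem_sort] at ha hb
    exact hanti ha hb hab

theorem exists_perm_of_list {N : ℕ} (l : List (Fin N)) (h : l.Perm (List.finRange N)) :
    ∃ σ : Equiv.Perm (Fin N), l = List.ofFn σ := by
  have hlen : l.length = N := by rw [h.length_eq, List.length_finRange]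
  have hnd : l.Nodup := h.nodup_iff.2 (List.nodup_finRange N)
  have hmem : ∀ x, x ∈ l := fun x => h.mem_iff.2 (List.mem_finRange x)
  refine ⟨(finCongr hlen.symm).trans (hnd.getEquivOfForallMemList l hmem), ?_⟩
  apply List.ext_get
  · simp [hlen]
  · intro n h1 h2
    simp

theorem ofFn_perm {N : ℕ} (σ : Equiv.Perm (Fin N)) : (List.ofFn σ).Perm (List.finRange N) := by
  have := Equiv.Perm.ofFn_comp_perm σ (id : Fin N → Fin N)
  simpa [List.ofFn_id] using this


theorem single_prod {F R : Type*} [Field F] [Ring R] [Algebra F R] {n : ℕ} {α : Type*}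
    (κ : α → Fin n × Fin n) (b : α → R) (l : List α) (u v : Fin n) :
    (l.map (fun i => Matrix.single (κ i).1 (κ i).2 (b i))).prod u v =
      ((l.map (fun i => Matrix.single (κ i).1 (κ i).2 (1 : F))).prod u v) • (l.map b).prod := by
  induction l generalizing u with
  | nil =>
    simp only [List.map_nil, List.prod_nil, Matrix.one_apply]
    split_ifs <;> simp
  | cons a l ih =>
    simp only [List.map_cons, List.prod_cons, Matrix.mul_apply, ih, Finset.sum_smul]
    apply Finset.sum_congr rfl
    intro j _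
    simp only [Matrix.single_apply]
    split_ifs <;> simp

theorem prod_sum_expand (F : Type*) {A : Type*} [Field F] [Ring A] [Algebra F A] {N : ℕ} {Q : Type*}
    [Fintype Q] (g : Fin N → Q → A) (σ : Equiv.Perm (Fin N)) :
    (List.ofFn ((fun i => ∑ q, g i q) ∘ σ)).prod =
      ∑ κ : Fin N → Q, (List.ofFn ((fun i => g i (κ i)) ∘ σ)).prod := by
  have h1 := MultilinearMap.map_sum (MultilinearMap.mkPiAlgebraFin F N A) (fun j q => g (σ j) q)
  simp only [MultilinearMap.mkPiAlgebraFin_apply] at h1
  refine Eq.trans h1 ?_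
  rw [← Equiv.sum_comp (Equiv.arrowCongr σ.symm (Equiv.refl Q))]
  rfl

theorem matrix_expand {F R : Type*} [Field F] [Ring R] [Algebra F R] {n N : ℕ}
    (X : Fin N → Matrix (Fin n) (Fin n) R) (σ : Equiv.Perm (Fin N)) (u v : Fin n) :
    (List.ofFn (X ∘ σ)).prod u v = ∑ κ : Fin N → Fin n × Fin n,
      (((List.ofFn σ).map (fun i => Matrix.single (κ i).1 (κ i).2 (1 : F))).prod u v) •
        mon R (List.ofFn σ) (fun i => X i (κ i).1 (κ i).2) := by
  have h1 : X = fun i => ∑ q : Fin n × Fin n, Matrix.single q.1 q.2 (X i q.1 q.2) := by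
    funext i
    conv_lhs => rw [Matrix.matrix_eq_sum_single (X i)]
    rw [Fintype.sum_prod_type]
  have h2 : (List.ofFn (X ∘ σ)).prod = ∑ κ : Fin N → Fin n × Fin n,
      (List.ofFn ((fun i => Matrix.single (κ i).1 (κ i).2 (X i (κ i).1 (κ i).2)) ∘ σ)).prod := by
    conv_lhs => rw [h1]
    exact prod_sum_expand F (fun (i : Fin N) (q : Fin n × Fin n) =>
      (Matrix.single q.1 q.2 (X i q.1 q.2) : Matrix (Fin n) (Fin n) R)) σ
  rw [h2, Matrix.sum_apply]
  apply Finset.sum_congr rfl
  intro κ _
  rw [mon, ← single_prod κ (fun i => X i (κ i).1 (κ i).2) (List.ofFn σ) u v, List.map_ofFn]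

theorem finrank_good_le {F R : Type*} [Field F] [Ring R] [Algebra F R] (D N : ℕ) :
    Module.finrank F (Submodule.span F (Set.range (fun σ : {σ : Equiv.Perm (Fin N) // GoodPerm D σ} =>
      mon R (List.ofFn σ.1)))) ≤ D ^ N * D ^ N := by
  classical
  have h1 := finrank_range_le_card (R := F) (fun σ : {σ : Equiv.Perm (Fin N) // GoodPerm D σ} =>
      mon R (List.ofFn σ.1))
  have h2 := card_good D N
  rw [← Fintype.card_subtype] at h2
  refine le_trans h1 (le_trans (le_of_eq ?_) h2)
  exact Fintype.card_congr (Equiv.refl _)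

theorem mon_mem {F R : Type*} [Field F] [Ring R] [Algebra F R] {D : ℕ}
    {c : Equiv.Perm (Fin D) → F} (hc : c 1 = 1) (h : MultId F R D c) {N : ℕ}
    (σ : Equiv.Perm (Fin N)) :
    mon R (List.ofFn σ) ∈ Submodule.span F (Set.range
      (fun σ : {σ : Equiv.Perm (Fin N) // GoodPerm D σ} => mon R (List.ofFn σ.1))) := by
  have h1 := straighten hc h (List.finRange N) (List.ofFn σ) (ofFn_perm σ)
  refine Submodule.span_mono ?_ h1
  rintro _ ⟨l, ⟨hl, hg⟩, rfl⟩
  obtain ⟨τ, rfl⟩ := exists_perm_of_list l hl
  refine ⟨⟨τ, ?_⟩, rfl⟩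
  by_contra hb
  exact hg (bad_of_not_good hb)

theorem exists_factorial_gt (a M : ℕ) : ∃ N : ℕ, a * M ^ N < N.factorial := by
  have h := FloorSemiring.tendsto_pow_div_factorial_atTop (M : ℝ)
  have h2 : ∀ᶠ n : ℕ in Filter.atTop, (M : ℝ) ^ n / n.factorial < 1 / (a + 1) :=
    h.eventually_lt_const (by positivity)
  obtain ⟨N, hN⟩ := h2.exists
  refine ⟨N, ?_⟩
  have h3 : (0 : ℝ) < N.factorial := by positivity
  rw [div_lt_div_iff₀ h3 (by positivity)] at hN
  have h4 : ((M : ℝ) ^ N * (a + 1)) < N.factorial := by simpa using hN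
  have h5 : M ^ N * (a + 1) < N.factorial := by exact_mod_cast h4
  calc a * M ^ N ≤ M ^ N * (a + 1) := by nlinarith [Nat.zero_le (M ^ N)]
    _ < _ := h5

theorem matrix_id {F R : Type*} [Field F] [Ring R] [Algebra F R] {D : ℕ}
    {c : Equiv.Perm (Fin D) → F} (hc : c 1 = 1) (h : MultId F R D c) (n : ℕ) :
    ∃ (N : ℕ) (p : Equiv.Perm (Fin N) → F), (0 < n → 0 < N) ∧ p ≠ 0 ∧
      MultId F (Matrix (Fin n) (Fin n) R) N p := by
  classical
  obtain ⟨N, hN⟩ := exists_factorial_gt (n * n) ((n * n) * (D * D))
  set W := Submodule.span F (Set.range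
      (fun σ : {σ : Equiv.Perm (Fin N) // GoodPerm D σ} => mon R (List.ofFn σ.1))) with hW
  have hWfin : Module.Finite F W := Module.Finite.span_of_finite F (Set.finite_range _)
  let m : Equiv.Perm (Fin N) → ((Fin N → Fin n × Fin n) × (Fin n × Fin n)) → F :=
    fun σ q => ((List.ofFn σ).map (fun i => Matrix.single (q.1 i).1 (q.1 i).2 (1 : F))).prod
      q.2.1 q.2.2
  let Φ : (Equiv.Perm (Fin N) → F) →ₗ[F] (((Fin N → Fin n × Fin n) × (Fin n × Fin n)) → W) :=
    LinearMap.pi (fun q => ∑ σ : Equiv.Perm (Fin N), (LinearMap.proj σ).smulRight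
      (m σ q • (⟨mon R (List.ofFn σ), mon_mem hc h σ⟩ : W)))
  have hlt : Module.finrank F (((Fin N → Fin n × Fin n) × (Fin n × Fin n)) → W) <
      Module.finrank F (Equiv.Perm (Fin N) → F) := by
    rw [Module.finrank_pi, Fintype.card_perm, Fintype.card_fin, Module.finrank_pi_fintype]
    simp only [Finset.sum_const, Finset.card_univ, Fintype.card_prod, Fintype.card_fin,
      Fintype.card_pi, Finset.prod_const, smul_eq_mul]
    calc (n * n) ^ N * (n * n) * Module.finrank F W ≤ (n * n) ^ N * (n * n) * (D ^ N * D ^ N) :=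
          Nat.mul_le_mul_left _ (finrank_good_le D N)
      _ = n * n * (n * n * (D * D)) ^ N := by ring
      _ < _ := hN
  obtain ⟨p, hp, hp0⟩ := (Submodule.ne_bot_iff _).1 (LinearMap.ker_ne_bot_of_finrank_lt (f := Φ) hlt)
  refine ⟨N, p, ?_, hp0, ?_⟩
  · intro hn
    rcases Nat.eq_zero_or_pos N with h0 | h0
    · exfalso
      subst h0
      have h2 : 0 < n * n := Nat.mul_pos hn hn
      simp at hN
      omega
    · exact h0
  have hker : ∀ κ u v, ∑ σ : Equiv.Perm (Fin N), p σ • (m σ (κ, (u, v)) • mon R (List.ofFn σ)) = 0 := by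
    intro κ u v
    rw [LinearMap.mem_ker] at hp
    have h1 := congrFun hp (κ, (u, v))
    have h2 := congrArg (Subtype.val) h1
    simpa [Φ] using h2
  intro X
  ext u v
  rw [Matrix.sum_apply]
  simp only [Matrix.smul_apply, Matrix.zero_apply]
  simp_rw [matrix_expand (F := F) X, Finset.smul_sum]
  rw [Finset.sum_comm]
  apply Finset.sum_eq_zero
  intro κ _
  have h1 := congrFun (hker κ u v) (fun i => X i (κ i).1 (κ i).2)
  rw [Finset.sum_apply] at h1
  simpa [m] using h1


theorem sum_powerset_sign (F : Type*) [Field F] {α : Type*} [DecidableEq α] (s : Finset α) :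
    ∑ m ∈ s.powerset, (-1 : F) ^ m.card = if s = ∅ then 1 else 0 := by
  have h := @Finset.sum_powerset_neg_one_pow_card α _ s
  have h2 := congrArg (Int.cast : ℤ → F) h
  push_cast at h2
  simpa using h2

theorem prod_sum_expand' (F : Type*) {A : Type*} [Field F] [Ring A] [Algebra F A] {N : ℕ} {Q : Type*}
    [Fintype Q] (g : Fin N → Q → A) :
    (List.ofFn (fun i => ∑ q, g i q)).prod =
      ∑ κ : Fin N → Q, (List.ofFn (fun i => g i (κ i))).prod := by
  have h1 := MultilinearMap.map_sum (MultilinearMap.mkPiAlgebraFin F N A) g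
  simp only [MultilinearMap.mkPiAlgebraFin_apply] at h1
  exact h1

theorem prod_ite {A : Type*} [Ring A] {L : ℕ} (P : Fin L → Prop) [DecidablePred P]
    [Decidable (∀ i, P i)] (b : Fin L → A) :
    (List.ofFn (fun i => if P i then b i else 0)).prod =
      if (∀ i, P i) then (List.ofFn b).prod else 0 := by
  split_ifs with h
  · congr 2
    funext i
    rw [if_pos (h i)]
  · push Not at h
    obtain ⟨i, hi⟩ := h
    apply List.prod_eq_zero
    rw [List.mem_ofFn]
    exact ⟨i, by rw [if_neg hi]⟩

open Classical in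
/-- substitution used in the multilinearisation -/
noncomputable def sub {A : Type*} [Ring A] {ι : Type*} {D : ℕ} (w0 : Fin D → ι) (b : Fin D → A)
    (T : Finset (Fin D)) : ι → A :=
  fun i => ∑ j : Fin D, if (j ∉ T ∧ w0 j = i) then b j else 0

open Classical in
theorem sum_sub {F A : Type*} [Field F] [Ring A] [Algebra F A] {ι : Type*} {D L : ℕ}
    (w0 : Fin D → ι) (b : Fin D → A) (w : Fin L → ι) :
    ∑ T : Finset (Fin D), (-1 : F) ^ T.card • ((List.ofFn w).map (sub w0 b T)).prod =
      ∑ φ : Fin L → Fin D, if (Function.Surjective φ ∧ w0 ∘ φ = w) then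
        (List.ofFn (b ∘ φ)).prod else 0 := by
  have h1 : ∀ T : Finset (Fin D), ((List.ofFn w).map (sub w0 b T)).prod =
      ∑ φ : Fin L → Fin D, if (∀ p, φ p ∉ T ∧ w0 (φ p) = w p) then (List.ofFn (b ∘ φ)).prod
        else 0 := by
    intro T
    rw [List.map_ofFn]
    have h2 : (sub w0 b T ∘ w) = fun p => ∑ j : Fin D, if (j ∉ T ∧ w0 j = w p) then b j else 0 := rfl
    rw [h2, prod_sum_expand' F]
    apply Finset.sum_congr rfl
    intro φ _
    exact prod_ite (fun p => φ p ∉ T ∧ w0 (φ p) = w p) (fun p => b (φ p))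
  simp_rw [h1, Finset.smul_sum]
  rw [Finset.sum_comm]
  apply Finset.sum_congr rfl
  intro φ _
  by_cases hw : w0 ∘ φ = w
  · have h3 : ∀ T : Finset (Fin D), (∀ p, φ p ∉ T ∧ w0 (φ p) = w p) ↔
        T ∈ (univ \ univ.image φ).powerset := by
      intro T
      rw [Finset.mem_powerset]
      constructor
      · intro h j hj
        rw [Finset.mem_sdiff]
        refine ⟨mem_univ _, ?_⟩
        intro hj2
        obtain ⟨p, -, rfl⟩ := Finset.mem_image.1 hj2
        exact (h p).1 hj
      · intro h p
        refine ⟨fun hp => ?_, congrFun hw p⟩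
        have := Finset.mem_sdiff.1 (h hp)
        exact this.2 (Finset.mem_image_of_mem _ (mem_univ _))
    have h4 : ∑ T : Finset (Fin D), (-1 : F) ^ T.card •
        (if (∀ p, φ p ∉ T ∧ w0 (φ p) = w p) then (List.ofFn (b ∘ φ)).prod else 0) =
        (∑ T ∈ (univ \ univ.image φ).powerset, (-1 : F) ^ T.card) • (List.ofFn (b ∘ φ)).prod := by
      rw [Finset.sum_smul]
      rw [← Finset.sum_filter_add_sum_filter_not univ (fun T => T ∈ (univ \ univ.image φ).powerset)]
      rw [Finset.filter_mem_eq_inter, Finset.univ_inter]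
      rw [Finset.sum_eq_zero (s := univ.filter (fun T => ¬ T ∈ (univ \ univ.image φ).powerset)),
        add_zero]
      · apply Finset.sum_congr rfl
        intro T hT
        rw [if_pos ((h3 T).2 hT)]
      · intro T hT
        rw [Finset.mem_filter] at hT
        rw [if_neg (fun h => hT.2 ((h3 T).1 h)), smul_zero]
    rw [h4, sum_powerset_sign]
    have h5 : (univ \ univ.image φ = ∅) ↔ Function.Surjective φ := by
      rw [Finset.sdiff_eq_empty_iff_subset]
      constructor
      · intro h j
        obtain ⟨p, -, hp⟩ := Finset.mem_image.1 (h (mem_univ j))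
        exact ⟨p, hp⟩
      · intro h j _
        obtain ⟨p, hp⟩ := h j
        exact Finset.mem_image.2 ⟨p, mem_univ _, hp⟩
    by_cases hs : Function.Surjective φ
    · rw [if_pos (h5.2 hs), if_pos ⟨hs, hw⟩, one_smul]
    · rw [if_neg (fun h => hs (h5.1 h)), if_neg (fun h => hs h.1), zero_smul]
  · rw [if_neg (fun h => hw h.2)]
    apply Finset.sum_eq_zero
    intro T _
    rw [if_neg, smul_zero]
    intro h
    exact hw (funext fun p => (h p).2)

open Classical in
theorem sum_surj {A : Type*} [Ring A] {ι : Type*} {D : ℕ}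
    (w0 : Fin D → ι) (b : Fin D → A) (w : Fin D → ι) :
    (∑ φ : Fin D → Fin D, if (Function.Surjective φ ∧ w0 ∘ φ = w) then
        (List.ofFn (b ∘ φ)).prod else 0) =
    ∑ σ : Equiv.Perm (Fin D), if w0 ∘ σ = w then (List.ofFn (b ∘ σ)).prod else 0 := by
  have hinj : Function.Injective (fun σ : Equiv.Perm (Fin D) => (σ : Fin D → Fin D)) :=
    DFunLike.coe_injective
  have h1 : (∑ σ : Equiv.Perm (Fin D), if w0 ∘ σ = w then (List.ofFn (b ∘ σ)).prod else 0) =
      ∑ φ ∈ univ.map ⟨_, hinj⟩, if (Function.Surjective φ ∧ w0 ∘ φ = w) then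
        (List.ofFn (b ∘ φ)).prod else 0 := by
    rw [Finset.sum_map]
    apply Finset.sum_congr rfl
    intro σ _
    simp only [Function.Embedding.coeFn_mk]
    simp [σ.surjective]
  rw [h1]
  symm
  apply Finset.sum_subset (Finset.subset_univ _)
  intro φ _ hφ
  rw [if_neg]
  rintro ⟨hs, -⟩
  apply hφ
  rw [Finset.mem_map]
  have hb : Function.Bijective φ := Finite.surjective_iff_bijective.1 hs
  exact ⟨Equiv.ofBijective φ hb, mem_univ _, rfl⟩

/-- unital PI -/
theorem multilinearise {F R : Type*} [Field F] [Ring R] [Algebra F R] {ι : Type*}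
    (f : MonoidAlgebra F (FreeMonoid ι)) (hf : f ≠ 0)
    (h : ∀ a : ι → R, MonoidAlgebra.lift F R (FreeMonoid ι) (FreeMonoid.lift a) f = 0) :
    ∃ (D : ℕ) (c : Equiv.Perm (Fin D) → F), c 1 = 1 ∧ MultId F R D c := by
  classical
  have hne : f.coeff.support.Nonempty := by
    rw [Finsupp.support_nonempty_iff]
    intro h0
    exact hf (MonoidAlgebra.coeff_eq_zero.1 h0)
  obtain ⟨v0, hv0, hmax⟩ := Finset.exists_max_image f.coeff.support (fun w => w.toList.length) hne
  obtain ⟨D, w0, hw0⟩ : ∃ (D : ℕ) (w0 : Fin D → ι), v0 = FreeMonoid.ofList (List.ofFn w0) :=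
    ⟨v0.toList.length, v0.toList.get, by rw [List.ofFn_get]; rfl⟩
  have hD : v0.toList.length = D := by rw [hw0]; simp
  have hcoef : f.coeff v0 ≠ 0 := Finsupp.mem_support_iff.1 hv0
  refine ⟨D, fun σ => (f.coeff v0)⁻¹ * f.coeff (FreeMonoid.ofList (List.ofFn (w0 ∘ σ))), ?_, ?_⟩
  · simp only [Equiv.Perm.coe_one, Function.comp_id]
    rw [← hw0, inv_mul_cancel₀ hcoef]
  · intro b
    have h1 : ∀ T : Finset (Fin D), ∑ w ∈ f.coeff.support, f.coeff w •
        (w.toList.map (sub w0 b T)).prod = 0 := by
      intro T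
      have := h (sub w0 b T)
      rw [MonoidAlgebra.lift_apply] at this
      simpa [Finsupp.sum, FreeMonoid.lift_apply] using this
    have h2 : ∑ T : Finset (Fin D), (-1 : F) ^ T.card • ∑ w ∈ f.coeff.support, f.coeff w •
        (w.toList.map (sub w0 b T)).prod = 0 :=
      Finset.sum_eq_zero (fun T _ => by rw [h1 T, smul_zero])
    simp_rw [Finset.smul_sum] at h2
    rw [Finset.sum_comm] at h2
    have h3 : ∀ w ∈ f.coeff.support, ∑ T : Finset (Fin D), (-1 : F) ^ T.card • f.coeff w •
        (w.toList.map (sub w0 b T)).prod = ∑ σ : Equiv.Perm (Fin D),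
          if FreeMonoid.ofList (List.ofFn (w0 ∘ σ)) = w then
            f.coeff w • (List.ofFn (b ∘ σ)).prod else 0 := by
      intro w hw
      have hlen : w.toList.length ≤ D := hD ▸ hmax w hw
      obtain ⟨L, w', hw'⟩ : ∃ (L : ℕ) (w' : Fin L → ι), w = FreeMonoid.ofList (List.ofFn w') :=
        ⟨w.toList.length, w.toList.get, by rw [List.ofFn_get]; rfl⟩
      have hL : w.toList.length = L := by rw [hw']; simp
      have h4 : ∑ T : Finset (Fin D), (-1 : F) ^ T.card • f.coeff w •
        (w.toList.map (sub w0 b T)).prod = f.coeff w •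
          ∑ φ : Fin L → Fin D, if (Function.Surjective φ ∧ w0 ∘ φ = w') then
        (List.ofFn (b ∘ φ)).prod else 0 := by
        rw [← sum_sub (F := F), Finset.smul_sum]
        apply Finset.sum_congr rfl
        intro T _
        rw [smul_comm, hw']
        rfl
      rw [h4]
      rw [hL] at hlen
      rcases hlen.lt_or_eq with hlt | rfl
      · -- no surjection
        rw [Finset.sum_eq_zero, smul_zero, Finset.sum_eq_zero]
        · intro σ _
          rw [if_neg]
          intro he
          have := congrArg (fun w => (FreeMonoid.toList w).length) he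
          rw [hL] at this
          simp at this
          omega
        · intro φ _
          rw [if_neg]
          rintro ⟨hs, -⟩
          have := Fintype.card_le_of_surjective φ hs
          simp at this
          omega
      · rw [sum_surj, Finset.smul_sum]
        apply Finset.sum_congr rfl
        intro σ _
        have h5 : (FreeMonoid.ofList (List.ofFn (w0 ∘ σ)) = w) ↔ (w0 ∘ σ = w') := by
          rw [hw']
          constructor
          · intro h
            exact List.ofFn_injective (FreeMonoid.ofList.injective h)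
          · intro h
            rw [h]
        by_cases h6 : w0 ∘ σ = w'
        · rw [if_pos h6, if_pos (h5.2 h6)]
        · rw [if_neg h6, if_neg (fun h => h6 (h5.1 h)), smul_zero]
    rw [Finset.sum_congr rfl h3, Finset.sum_comm] at h2
    have h7 : ∀ σ : Equiv.Perm (Fin D), (∑ w ∈ f.coeff.support,
        if FreeMonoid.ofList (List.ofFn (w0 ∘ σ)) = w then
            f.coeff w • (List.ofFn (b ∘ σ)).prod else 0) =
        f.coeff (FreeMonoid.ofList (List.ofFn (w0 ∘ σ))) • (List.ofFn (b ∘ σ)).prod := by
      intro σ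
      rw [Finset.sum_ite_eq]
      split_ifs with h8
      · rfl
      · rw [Finsupp.notMem_support_iff.1 h8, zero_smul]
    simp_rw [h7] at h2
    simp_rw [mul_smul]
    rw [← Finset.smul_sum, h2, smul_zero]




theorem map_lift {F A B : Type*} [Field F] [NonUnitalRing A] [Module F A]
    [IsScalarTower F A A] [SMulCommClass F A A] [NonUnitalRing B] [Module F B]
    [IsScalarTower F B B] [SMulCommClass F B B] (ψ : A →ₙₐ[F] B) {ι : Type*} (a : ι → A)
    (f : MonoidAlgebra F (FreeSemigroup ι)) :
    ψ (MonoidAlgebra.liftMagma F (FreeSemigroup.lift a) f) =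
      MonoidAlgebra.liftMagma F (FreeSemigroup.lift (ψ ∘ a)) f := by
  have h : ψ.comp (MonoidAlgebra.liftMagma F (FreeSemigroup.lift a)) =
      MonoidAlgebra.liftMagma F (FreeSemigroup.lift (ψ ∘ a)) := by
    apply MonoidAlgebra.nonUnitalAlgHom_ext'
    apply FreeSemigroup.hom_ext
    funext i
    simp
  exact DFunLike.congr_fun h f

theorem foldl_prod {R : Type*} [Ring R] {ι : Type*} (a : ι → R) (y : R) (xs : List ι) :
    xs.foldl (fun p x => p * a x) y = y * (xs.map a).prod := by
  induction xs generalizing y with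
  | nil => simp
  | cons x xs ih => simp [ih, mul_assoc]

theorem lift_mk {R : Type*} [Ring R] {ι : Type*} (a : ι → R) (w : FreeSemigroup ι) :
    FreeSemigroup.lift a w = ((w.head :: w.tail).map a).prod := by
  obtain ⟨x, xs⟩ := w
  rw [FreeSemigroup.lift_mk_eq_foldl, foldl_prod]
  simp

theorem liftMagma_eq {F A : Type*} [Field F] [NonUnitalRing A] [Module F A]
    [IsScalarTower F A A] [SMulCommClass F A A] {M : Type*} [Semigroup M] (g : M →ₙ* A)
    (f : MonoidAlgebra F M) :
    MonoidAlgebra.liftMagma F g f = ∑ w ∈ f.coeff.support, f.coeff w • g w := rfl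

/-- natural map to the unital free algebra is injective -/
theorem theta_ne_zero {F : Type*} [Field F] {ι : Type*} (f : MonoidAlgebra F (FreeSemigroup ι))
    (hf : f ≠ 0) : MonoidAlgebra.liftMagma F (FreeSemigroup.lift
      (fun i => (MonoidAlgebra.single (FreeMonoid.of i) 1 : MonoidAlgebra F (FreeMonoid ι)))) f ≠ 0 := by
  classical
  have h1 : ∀ w : FreeSemigroup ι, FreeSemigroup.lift
      (fun i => (MonoidAlgebra.single (FreeMonoid.of i) 1 : MonoidAlgebra F (FreeMonoid ι))) w =
      MonoidAlgebra.single (FreeMonoid.ofList (w.head :: w.tail)) 1 := by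
    intro w
    rw [lift_mk]
    have h2 : ∀ l : List ι, (l.map (fun i => (MonoidAlgebra.single (FreeMonoid.of i) 1 :
        MonoidAlgebra F (FreeMonoid ι)))).prod = MonoidAlgebra.single (FreeMonoid.ofList l) 1 := by
      intro l
      induction l with
      | nil => rfl
      | cons x l ih =>
        rw [List.map_cons, List.prod_cons, ih, MonoidAlgebra.single_mul_single, mul_one]
        rfl
    exact h2 _
  obtain ⟨w0, hw0⟩ : ∃ w0, f.coeff w0 ≠ 0 := by
    by_contra hall
    push Not at hall
    apply hf
    apply MonoidAlgebra.coeff_eq_zero.1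
    ext w
    simpa using hall w
  intro h0
  rw [liftMagma_eq] at h0
  have h3 := congrArg (fun g => MonoidAlgebra.coeff g (FreeMonoid.ofList (w0.head :: w0.tail))) h0
  simp only [MonoidAlgebra.coeff_sum, Finsupp.finsetSum_apply, h1] at h3
  rw [Finset.sum_eq_single w0] at h3
  · simp at h3
    exact hw0 h3
  · intro w _ hw
    simp only [MonoidAlgebra.coeff_smul, MonoidAlgebra.coeff_single, Finsupp.smul_apply]
    rw [Finsupp.single_eq_of_ne, smul_zero]
    intro h4
    apply hw
    have h5 := FreeMonoid.ofList.injective h4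
    rw [List.cons_eq_cons] at h5
    exact FreeSemigroup.ext h5.1.symm h5.2.symm
  · intro h4
    rw [Finsupp.notMem_support_iff] at h4
    rw [h4, zero_smul]
    rfl

theorem map_lift' {F A B : Type*} [Field F] [Ring A] [Algebra F A]
    [Ring B] [Algebra F B] (ψ : A →ₐ[F] B) {ι : Type*} (a : ι → A)
    (f : MonoidAlgebra F (FreeSemigroup ι)) :
    ψ (MonoidAlgebra.liftMagma F (FreeSemigroup.lift a) f) =
      MonoidAlgebra.liftMagma F (FreeSemigroup.lift (ψ ∘ a)) f :=
  map_lift (ψ : A →ₙₐ[F] B) a f

/-- the generic commutators -/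
noncomputable def cz (F : Type*) [Field F] (n : ℕ) : Fin n → MonoidAlgebra F (FreeMonoid (Fin n × Bool)) :=
  fun i => MonoidAlgebra.single (FreeMonoid.of (i, false)) 1 *
      MonoidAlgebra.single (FreeMonoid.of (i, true)) 1 -
    MonoidAlgebra.single (FreeMonoid.of (i, true)) 1 *
      MonoidAlgebra.single (FreeMonoid.of (i, false)) 1

theorem cz_eval {F R : Type*} [Field F] [Ring R] [Algebra F R] {n : ℕ}
    (f : MonoidAlgebra F (FreeSemigroup (Fin n))) (a : Fin n × Bool → R) :
    MonoidAlgebra.lift F R (FreeMonoid (Fin n × Bool)) (FreeMonoid.lift a)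
        (MonoidAlgebra.liftMagma F (FreeSemigroup.lift (cz F n)) f) =
      MonoidAlgebra.liftMagma F (FreeSemigroup.lift
        (fun i => a (i, false) * a (i, true) - a (i, true) * a (i, false))) f := by
  rw [map_lift']
  congr 3
  funext i
  simp only [cz, Function.comp_apply, map_sub, map_mul, MonoidAlgebra.lift_single, one_smul,
    FreeMonoid.lift_eval_of]

/-- the universal enveloping unital algebra of a PI algebra satisfies a unital identity -/
theorem unitization_pi {F A : Type*} [Field F] [NonUnitalRing A] [Module F A]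
    [IsScalarTower F A A] [SMulCommClass F A A] {n : ℕ}
    (f : MonoidAlgebra F (FreeSemigroup (Fin n))) (hf : f ≠ 0)
    (h : ∀ a : Fin n → A, MonoidAlgebra.liftMagma F (FreeSemigroup.lift a) f = 0) :
    ∃ g : MonoidAlgebra F (FreeMonoid (Fin n × Bool)), g ≠ 0 ∧ ∀ a : Fin n × Bool → Unitization F A,
      MonoidAlgebra.lift F (Unitization F A) (FreeMonoid (Fin n × Bool)) (FreeMonoid.lift a) g = 0 := by
  refine ⟨MonoidAlgebra.liftMagma F (FreeSemigroup.lift (cz F n)) f, ?_, ?_⟩
  · intro h0
    let y : Fin n → MonoidAlgebra F (FreeMonoid (Fin n)) :=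
      fun i => MonoidAlgebra.single (FreeMonoid.of i) 1
    have h1 := cz_eval (R := Matrix (Fin 2) (Fin 2) (MonoidAlgebra F (FreeMonoid (Fin n)))) f
      (fun i => if i.2 = false then Matrix.single 0 1 (y i.1) else Matrix.single 1 0 1)
    rw [h0, map_zero] at h1
    have h2 : (fun i : Fin n => (if ((i, false) : Fin n × Bool).2 = false then
          Matrix.single 0 1 (y ((i, false) : Fin n × Bool).1) else Matrix.single 1 0 1) *
        (if ((i, true) : Fin n × Bool).2 = false then
          Matrix.single 0 1 (y ((i, true) : Fin n × Bool).1) else Matrix.single 1 0 1) -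
        (if ((i, true) : Fin n × Bool).2 = false then
          Matrix.single 0 1 (y ((i, true) : Fin n × Bool).1) else Matrix.single 1 0 1) *
        (if ((i, false) : Fin n × Bool).2 = false then
          Matrix.single 0 1 (y ((i, false) : Fin n × Bool).1) else Matrix.single 1 0 1)) =
        (Matrix.diagonalAlgHom F : (Fin 2 → MonoidAlgebra F (FreeMonoid (Fin n))) →ₐ[F]
          Matrix (Fin 2) (Fin 2) (MonoidAlgebra F (FreeMonoid (Fin n)))) ∘
          (fun i => ![y i, - y i]) := by
      funext i
      ext u v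
      fin_cases u <;> fin_cases v <;> simp
    rw [h2, ← map_lift'] at h1
    have h5 := congrFun (congrFun h1 0) 0
    have h6 := map_lift' (Pi.evalAlgHom F (fun _ : Fin 2 => MonoidAlgebra F (FreeMonoid (Fin n))) 0)
      (fun i => ![y i, - y i]) f
    apply theta_ne_zero f hf
    refine Eq.trans ?_ (h6.symm.trans ?_)
    · rfl
    · rw [Matrix.diagonalAlgHom_apply, Matrix.diagonal_apply_eq] at h5
      exact h5.symm
  · intro a
    rw [cz_eval]
    have h1 : (fun i => a (i, false) * a (i, true) - a (i, true) * a (i, false)) =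
        (Unitization.inrNonUnitalAlgHom F A) ∘
          (fun i => (a (i, false) * a (i, true) - a (i, true) * a (i, false)).snd) := by
      funext i
      apply Unitization.ext
      · show (a (i, false) * a (i, true) - a (i, true) * a (i, false)).fst = 0
        rw [sub_eq_add_neg, Unitization.fst_add, Unitization.fst_neg, Unitization.fst_mul,
          Unitization.fst_mul, mul_comm, add_neg_cancel]
      · rfl
    rw [h1, ← map_lift, h, map_zero]


/-- the word of a permutation -/
def pword {N : ℕ} (σ : Equiv.Perm (Fin (N + 1))) : FreeSemigroup (Fin (N + 1)) :=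
  ⟨σ 0, List.ofFn (fun i : Fin N => σ i.succ)⟩

theorem pword_inj {N : ℕ} : Function.Injective (pword (N := N)) := by
  intro σ τ h
  have h1 : σ 0 = τ 0 := congrArg FreeSemigroup.head h
  have h2 : (List.ofFn (fun i : Fin N => σ i.succ)) = List.ofFn (fun i : Fin N => τ i.succ) :=
    congrArg FreeSemigroup.tail h
  have h3 := List.ofFn_injective h2
  apply Equiv.ext
  intro i
  refine Fin.cases h1 (fun j => congrFun h3 j) i

theorem isPI_of_mult {F : Type*} {B : Type*} {R : Type*} [Field F] [NonUnitalRing B] [Module F B]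
    [IsScalarTower F B B] [SMulCommClass F B B] [Ring R] [Algebra F R] (ψ : B →ₙₐ[F] R)
    (hψ : Function.Injective ψ) {N : ℕ} (hN : 0 < N) (p : Equiv.Perm (Fin N) → F) (hp : p ≠ 0)
    (h : MultId F R N p) : IsPI F B := by
  classical
  obtain ⟨N, rfl⟩ : ∃ M, N = M + 1 := ⟨N - 1, by omega⟩
  refine ⟨N + 1, ∑ σ : Equiv.Perm (Fin (N + 1)), MonoidAlgebra.single (pword σ) (p σ), ?_, ?_⟩
  · intro h0
    apply hp
    funext τ
    have h1 := congrArg (fun g => MonoidAlgebra.coeff g (pword τ)) h0
    simp only [MonoidAlgebra.coeff_sum, Finsupp.finsetSum_apply, MonoidAlgebra.coeff_single] at h1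
    rw [Finset.sum_eq_single τ] at h1
    · simpa using h1
    · intro σ _ hσ
      rw [Finsupp.single_eq_of_ne]
      intro h2
      exact hσ (pword_inj h2).symm
    · intro h2
      exact absurd (mem_univ _) h2
  · intro a
    apply hψ
    rw [map_lift, map_zero, map_sum]
    have h1 : ∀ σ : Equiv.Perm (Fin (N + 1)), MonoidAlgebra.liftMagma F (FreeSemigroup.lift (ψ ∘ a))
        (MonoidAlgebra.single (pword σ) (p σ)) = p σ • (List.ofFn ((ψ ∘ a) ∘ σ)).prod := by
      intro σ
      have h2 : MonoidAlgebra.liftMagma F (FreeSemigroup.lift (ψ ∘ a))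
        (MonoidAlgebra.single (pword σ) (p σ)) = p σ • FreeSemigroup.lift (ψ ∘ a) (pword σ) := by
        rw [liftMagma_eq]
        rw [Finset.sum_eq_single (pword σ)]
        · simp
        · intro w _ hw
          rw [MonoidAlgebra.coeff_single, Finsupp.single_eq_of_ne hw, zero_smul]
        · intro h3
          rw [Finsupp.notMem_support_iff] at h3
          rw [h3, zero_smul]
      rw [h2, lift_mk]
      congr 2
      simp only [pword]
      rw [List.ofFn_succ, List.map_cons, List.map_ofFn]
      rfl
    rw [Finset.sum_congr rfl (fun σ _ => h1 σ)]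
    exact h (ψ ∘ a)

section gen

variable {C : Type*} [Ring C]

/-- the shift matrix -/
def Xm (C : Type*) [Ring C] (n : ℕ) : Matrix (Fin n) (Fin n) C :=
  Matrix.of fun i j => if i.val + 1 = j.val then 1 else 0

/-- the second generator -/
def Ym {n : ℕ} (a : ℕ → C) : Matrix (Fin n) (Fin n) C :=
  Matrix.of fun i j => if i.val = 0 then a j.val else if i.val + 1 = n ∧ j.val = 0 then 1 else 0

theorem Xm_pow (n m : ℕ) (i j : Fin n) :
    (Xm C n ^ m) i j = if i.val + m = j.val then 1 else 0 := by
  induction m generalizing i j with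
  | zero => simp [Matrix.one_apply, Fin.ext_iff]
  | succ m ih =>
    rw [pow_succ, Matrix.mul_apply]
    simp_rw [ih]
    simp only [Xm, Matrix.of_apply, ite_mul, one_mul, zero_mul]
    by_cases h : i.val + m < n
    · rw [Finset.sum_eq_single (⟨i.val + m, h⟩ : Fin n)]
      · simp [add_assoc]
      · intro k _ hk
        rw [if_neg]
        intro h2
        exact hk (Fin.ext h2.symm)
      · intro h2
        exact absurd (mem_univ _) h2
    · rw [if_neg (by have := j.isLt; omega)]
      apply Finset.sum_eq_zero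
      intro k _
      rw [if_neg (by have := k.isLt; omega)]

theorem Xm_pow_mul (n m : ℕ) (M : Matrix (Fin n) (Fin n) C) (i j : Fin n) :
    (Xm C n ^ m * M) i j = if h : i.val + m < n then M ⟨i.val + m, h⟩ j else 0 := by
  rw [Matrix.mul_apply]
  simp_rw [Xm_pow]
  simp only [ite_mul, one_mul, zero_mul]
  split_ifs with h
  · rw [Finset.sum_eq_single (⟨i.val + m, h⟩ : Fin n)]
    · simp
    · intro k _ hk
      rw [if_neg]
      intro h2
      exact hk (Fin.ext h2.symm)
    · intro h2
      exact absurd (mem_univ _) h2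
  · apply Finset.sum_eq_zero
    intro k _
    rw [if_neg (by have := k.isLt; omega)]

theorem mul_Xm_pow (n m : ℕ) (M : Matrix (Fin n) (Fin n) C) (i j : Fin n) :
    (M * Xm C n ^ m) i j = if h : m ≤ j.val then M i ⟨j.val - m, by omega⟩ else 0 := by
  rw [Matrix.mul_apply]
  simp_rw [Xm_pow]
  simp only [mul_ite, mul_one, mul_zero]
  split_ifs with h
  · rw [Finset.sum_eq_single (⟨j.val - m, by omega⟩ : Fin n)]
    · simp [h]
    · intro k _ hk
      rw [if_neg]
      intro h2
      apply hk
      apply Fin.ext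
      simp only
      omega
    · intro h2
      exact absurd (mem_univ _) h2
  · apply Finset.sum_eq_zero
    intro k _
    rw [if_neg (by omega)]

/-- `X^(n-1) Y Y X^(n-1-j) Y = a_j e_00` -/
theorem word_eq {n : ℕ} (a : ℕ → C) (h0 : a 0 = 0) (j : ℕ) (hj : 0 < j) (hjn : j ≤ n + 1) :
    Xm C (n + 2) ^ (n + 1) * Ym a * Ym a * Xm C (n + 2) ^ (n + 1 - j) * Ym a =
      Matrix.single 0 0 (a j) := by
  have h1 : Xm C (n + 2) ^ (n + 1) * Ym a = Matrix.single 0 0 1 := by
    ext u v
    rw [Xm_pow_mul, Matrix.single_apply]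
    by_cases hu : u.val = 0
    · rw [dif_pos (by omega)]
      simp only [Ym, Matrix.of_apply]
      rw [if_neg (by omega)]
      by_cases hv : v.val = 0
      · rw [if_pos (by omega), if_pos ⟨Fin.ext hu.symm, Fin.ext hv.symm⟩]
      · rw [if_neg (by omega), if_neg]
        rintro ⟨-, h⟩
        exact hv (by rw [← h]; rfl)
    · rw [dif_neg (by omega), if_neg]
      rintro ⟨h, -⟩
      exact hu (by rw [← h]; rfl)
  have h2 : Xm C (n + 2) ^ (n + 1) * Ym a * Ym a * Xm C (n + 2) ^ (n + 1 - j) =
      Matrix.of fun u v => if u.val = 0 ∧ n + 1 - j ≤ v.val then a (v.val - (n + 1 - j)) else 0 := by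
    ext u v
    rw [h1, mul_Xm_pow, Matrix.of_apply]
    split_ifs with h3 h4 h4
    · rw [Matrix.mul_apply, Finset.sum_eq_single 0]
      · rw [Matrix.single_apply, if_pos ⟨Fin.ext h4.1.symm, rfl⟩, one_mul]
        simp [Ym]
      · intro k _ hk
        rw [Matrix.single_apply, if_neg (fun h => hk h.2.symm), zero_mul]
      · intro h; exact absurd (mem_univ _) h
    · rw [Matrix.mul_apply, Finset.sum_eq_zero]
      intro k _
      rw [Matrix.single_apply, if_neg, zero_mul]
      rintro ⟨h, -⟩
      exact h4 ⟨by rw [← h]; rfl, h3⟩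
    · exact absurd h4.2 h3
    · rfl
  rw [h2]
  ext u v
  rw [Matrix.mul_apply, Finset.sum_eq_single (Fin.last (n + 1)), Matrix.single_apply]
  · have e1 : (Ym a : Matrix (Fin (n + 2)) (Fin (n + 2)) C) (Fin.last (n + 1)) v =
        if v.val = 0 then 1 else 0 := by
      simp [Ym]
    rw [e1, Matrix.of_apply, Fin.val_last]
    have e2 : n + 1 - (n + 1 - j) = j := by omega
    have e3 : n + 1 - j ≤ n + 1 := by omega
    rw [e2]
    by_cases hu : u.val = 0
    · rw [if_pos ⟨hu, e3⟩]
      by_cases hv : v.val = 0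
      · rw [if_pos hv, if_pos ⟨Fin.ext hu.symm, Fin.ext hv.symm⟩, mul_one]
      · rw [if_neg hv, if_neg, mul_zero]
        rintro ⟨-, h⟩
        exact hv (by rw [← h]; rfl)
    · rw [if_neg (fun h => hu h.1), zero_mul, if_neg]
      rintro ⟨h, -⟩
      exact hu (by rw [← h]; rfl)
  · intro k _ hk
    have hk2 : k.val ≠ n + 1 := fun h => hk (Fin.ext h)
    rw [Matrix.of_apply]
    by_cases hk0 : k.val = 0
    · rw [hk0]
      by_cases hj2 : n + 1 - j = 0
      · simp [h0, hj2]
      · rw [if_neg (fun h => hj2 (Nat.le_zero.1 h.2)), zero_mul]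
    · have e1 : (Ym a : Matrix (Fin (n + 2)) (Fin (n + 2)) C) k v = 0 := by
        simp only [Ym, Matrix.of_apply]
        rw [if_neg hk0, if_neg]
        rintro ⟨h, -⟩
        omega
      rw [e1, mul_zero]
  · intro h; exact absurd (mem_univ _) h

end gen

theorem pow_mem' {F B : Type*} [Field F] [Ring B] [Algebra F B] (S : NonUnitalSubalgebra F B)
    {x : B} (hx : x ∈ S) (m : ℕ) : x ^ (m + 1) ∈ S := by
  induction m with
  | zero => simpa using hx
  | succ m ih => rw [pow_succ]; exact S.mul_mem ih hx

theorem mul_pow_mem {F B : Type*} [Field F] [Ring B] [Algebra F B] (S : NonUnitalSubalgebra F B)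
    {x p : B} (hp : p ∈ S) (hx : x ∈ S) (m : ℕ) : p * x ^ m ∈ S := by
  induction m with
  | zero => simpa using hp
  | succ m ih => rw [pow_succ, ← mul_assoc]; exact S.mul_mem ih hx

/-- corner embedding -/
def corner (F : Type*) (A : Type*) [Field F] [NonUnitalRing A] [Module F A]
    [IsScalarTower F A A] [SMulCommClass F A A] (n : ℕ) :
    A →ₙₐ[F] Matrix (Fin (n + 2)) (Fin (n + 2)) (Unitization F A) where
  toFun a := Matrix.single 0 0 (a : Unitization F A)
  map_smul' r a := by
    simp [Matrix.smul_single]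
  map_zero' := by simp
  map_add' a b := by
    simp [Matrix.single_add]
  map_mul' a b := by
    simp

theorem twoGen_adjoin {F B : Type*} [Field F] [Ring B] [Algebra F B] (X Y : B) :
    TwoGen F (NonUnitalAlgebra.adjoin F {X, Y}) := by
  have hX : X ∈ NonUnitalAlgebra.adjoin F {X, Y} := NonUnitalAlgebra.subset_adjoin F (by simp)
  have hY : Y ∈ NonUnitalAlgebra.adjoin F {X, Y} := NonUnitalAlgebra.subset_adjoin F (by simp)
  refine ⟨⟨X, hX⟩, ⟨Y, hY⟩, ?_⟩
  rw [eq_top_iff]
  intro b _
  have h1 : (b : B) ∈ (NonUnitalAlgebra.adjoin F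
      {(⟨X, hX⟩ : NonUnitalAlgebra.adjoin F {X, Y}), ⟨Y, hY⟩}).map
      (NonUnitalSubalgebraClass.subtype (NonUnitalAlgebra.adjoin F {X, Y})) := by
    rw [NonUnitalAlgHom.map_adjoin, Set.image_pair]
    exact b.2
  obtain ⟨c, hc, e⟩ := h1
  have h2 : c = b := Subtype.ext e
  rw [← h2]
  exact hc

/-- Sanity check: the notion is not empty of content, free algebras are not PI. -/
theorem free_not_isPI {F : Type u} [Field F] : ¬ IsPI F (MonoidAlgebra F (FreeSemigroup ℕ)) := by
  rintro ⟨n, f, hf, h⟩
  have h1 := h (fun i => MonoidAlgebra.single (FreeSemigroup.of (i : ℕ)) 1)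
  let ψ : MonoidAlgebra F (FreeSemigroup ℕ) →ₙₐ[F] MonoidAlgebra F (FreeMonoid (Fin n)) :=
    MonoidAlgebra.liftMagma F (FreeSemigroup.lift (fun j : ℕ => if h : j < n then
      MonoidAlgebra.single (FreeMonoid.of (⟨j, h⟩ : Fin n)) 1 else 0))
  have h2 := congrArg ψ h1
  rw [map_lift, map_zero] at h2
  apply theta_ne_zero f hf
  refine Eq.trans ?_ h2
  congr 3
  funext i
  simp [ψ]

/-- Sanity check: commutative algebras are PI. -/
theorem comm_isPI {F : Type u} {A : Type v} [Field F] [NonUnitalCommRing A] [Module F A]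
    [IsScalarTower F A A] [SMulCommClass F A A] : IsPI F A := by
  refine ⟨2, MonoidAlgebra.single (FreeSemigroup.of 0 * FreeSemigroup.of 1) 1 -
    MonoidAlgebra.single (FreeSemigroup.of 1 * FreeSemigroup.of 0) 1, ?_, ?_⟩
  · intro h
    rw [sub_eq_zero, MonoidAlgebra.single_left_inj one_ne_zero] at h
    have h1 := congrArg FreeSemigroup.head h
    simp at h1
  · intro a
    rw [map_sub]
    simp [mul_comm]

/-- Every finitely generated associative PI algebra over any field embeds into an associative PI
algebra generated by two elements. -/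
theorem result {F : Type u} [Field F] {A : Type v} [NonUnitalRing A] [Module F A]
    [IsScalarTower F A A] [SMulCommClass F A A] (hfg : FinGen F A) (hPI : IsPI F A) :
    ∃ (B : Type (max u v)) (_ : NonUnitalRing B) (_ : Module F B) (_ : IsScalarTower F B B)
      (_ : SMulCommClass F B B), TwoGen F B ∧ IsPI F B ∧
        ∃ φ : A →ₙₐ[F] B, Function.Injective φ := by
  classical
  obtain ⟨s, hs⟩ := hfg
  obtain ⟨n0, f, hf, hfa⟩ := hPI
  obtain ⟨g, hg, hga⟩ := unitization_pi f hf hfa
  obtain ⟨D, c, hc, hcid⟩ := multilinearise g hg hga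
  let a : ℕ → A := fun j => (0 :: s.toList).getD j 0
  have ha0 : a 0 = 0 := rfl
  have has : ∀ x ∈ s, ∃ j, 0 < j ∧ j ≤ s.card ∧ a j = x := by
    intro x hx
    rw [← Finset.mem_toList] at hx
    obtain ⟨i, hi, e⟩ := List.getElem_of_mem hx
    refine ⟨i + 1, by omega, by rw [Finset.length_toList] at hi; omega, ?_⟩
    simp only [a, List.getD_cons_succ]
    rw [List.getD_eq_getElem _ _ hi, e]
  let n := s.card
  let X : Matrix (Fin (n + 2)) (Fin (n + 2)) (Unitization F A) := Xm (Unitization F A) (n + 2)
  let Y : Matrix (Fin (n + 2)) (Fin (n + 2)) (Unitization F A) :=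
    Ym (fun j => (a j : Unitization F A))
  obtain ⟨N, p, hN, hp, hpid⟩ := matrix_id hc hcid (n + 2)
  have hXB : X ∈ NonUnitalAlgebra.adjoin F {X, Y} := NonUnitalAlgebra.subset_adjoin F (by simp)
  have hYB : Y ∈ NonUnitalAlgebra.adjoin F {X, Y} := NonUnitalAlgebra.subset_adjoin F (by simp)
  have hmem : ∀ x : A, corner F A n x ∈ NonUnitalAlgebra.adjoin F {X, Y} := by
    intro x
    have h1 : corner F A n x ∈ (NonUnitalAlgebra.adjoin F (s : Set A)).map (corner F A n) := by
      rw [hs]
      exact ⟨x, trivial, rfl⟩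
    rw [NonUnitalAlgHom.map_adjoin] at h1
    have h2 : NonUnitalAlgebra.adjoin F (corner F A n '' (s : Set A)) ≤
        NonUnitalAlgebra.adjoin F {X, Y} := by
      rw [NonUnitalAlgebra.adjoin_le_iff]
      rintro _ ⟨y, hy, rfl⟩
      obtain ⟨j, hj0, hjn, rfl⟩ := has y hy
      have h3 := word_eq (n := n) (fun j => (a j : Unitization F A)) (by simp [ha0]) j hj0 (by omega)
      have h4 : corner F A n (a j) = X ^ (n + 1) * Y * Y * X ^ (n + 1 - j) * Y := h3.symm
      rw [h4]
      exact mul_mem (mul_pow_mem _ (mul_mem (mul_mem (pow_mem' _ hXB n) hYB) hYB) hXB _) hYB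
    exact h2 h1
  refine ⟨NonUnitalAlgebra.adjoin F {X, Y}, inferInstance, inferInstance, inferInstance,
    inferInstance, twoGen_adjoin X Y, ?_, ?_⟩
  · exact isPI_of_mult (NonUnitalSubalgebraClass.subtype (NonUnitalAlgebra.adjoin F {X, Y}))
      Subtype.val_injective (hN (by omega)) p hp hpid
  · refine ⟨NonUnitalAlgHom.codRestrict (corner F A n) _ hmem, ?_⟩
    intro x y hxy
    have h1 : corner F A n x = corner F A n y := congrArg Subtype.val hxy
    have h2 := congrFun (congrFun h1 0) 0
    have h3 : (x : Unitization F A) = (y : Unitization F A) := by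
      simpa [corner] using h2
    exact Unitization.inr_injective h3

end Pool.Agent.Results.MP_e0d88d_al.TwoGenPI
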